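import Pool.Agent.Helper43.MU.Sub

/-!
# BNS: a representation with the trace of an irreducible one is isomorphic to it
-/

set_option autoImplicit false

open Polynomial

namespace MU

/-- an element `a` with `a w = w`, `w ≠ 0`, such that `a q(a)` has trace `0` for all polynomials
`q`, does not exist in characteristic `0` -/
theorem bns_idem {K : Type} [Field K] [CharZero K] {n : ℕ} (a : Matrix (Fin n) (Fin n) K)
    (w : Fin n → K) (hw : w ≠ 0) (haw : a.mulVec w = w)
    (htr : ∀ q : K[X], (a * aeval a q).trace = 0) : False := by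
  classical
  obtain ⟨g, hg, hgX⟩ := exists_eq_pow_rootMultiplicity_mul_and_not_dvd a.charpoly
    a.charpoly_monic.ne_zero 0
  rw [C_0, sub_zero] at hg hgX
  set k := a.charpoly.rootMultiplicity 0 with hk
  have hcop : IsCoprime (X ^ (k + 1)) g :=
    ((irreducible_X (R := K)).coprime_iff_not_dvd.mpr hgX).pow_left
  obtain ⟨u, v, huv⟩ := hcop
  have hfa : aeval a (X ^ k * g) = 0 := by
    rw [← hg]; exact Matrix.aeval_self_charpoly a
  set e := aeval a (u * X ^ (k + 1)) with he
  have he1 : 1 - e = aeval a (v * g) := by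
    have h1 : aeval a (u * X ^ (k + 1) + v * g) = 1 := by rw [huv, map_one]
    rw [map_add] at h1
    rw [he, ← h1]; abel
  have hidem : e * (1 - e) = 0 := by
    rw [he1, he, ← map_mul,
      show u * X ^ (k + 1) * (v * g) = u * v * X * (X ^ k * g) by ring, map_mul, hfa, mul_zero]
  have hide : e * e = e := by
    have h1 : e * (1 - e) = e - e * e := by rw [mul_sub, mul_one]
    rw [h1] at hidem
    exact (sub_eq_zero.mp hidem).symm
  have hetr : e.trace = 0 := by
    have h1 := htr (u * X ^ k)
    have h2 : e = a * aeval a (u * X ^ k) := by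
      rw [he, show u * X ^ (k + 1) = X * (u * X ^ k) by ring, map_mul, aeval_X]
    rw [h2]; exact h1
  have he0 : e = 0 := by
    have h1 : IsIdempotentElem (Matrix.toLin' e) := by
      change Matrix.toLin' e * Matrix.toLin' e = Matrix.toLin' e
      have h4 := Matrix.toLin'_mul e e
      rw [hide] at h4
      exact h4.symm
    have h2 : LinearMap.trace K (Fin n → K) (Matrix.toLin' e) = 0 := by
      rw [Matrix.trace_toLin'_eq, hetr]
    have h3 := LinearMap.IsIdempotentElem.eq_zero_of_trace_eq_zero h1 h2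
    exact (map_eq_zero_iff _ (Matrix.toLin' (R := K) (m := Fin n) (n := Fin n)).injective).mp h3
  -- a polynomial in `a` acts on `w` by its value at `1`
  have hact : ∀ q : K[X], (aeval a q).mulVec w = q.eval 1 • w := by
    intro q
    induction q using Polynomial.induction_on' with
    | add p q hp hq => rw [map_add, Matrix.add_mulVec, hp, hq, eval_add, add_smul]
    | monomial m c =>
      rw [aeval_monomial, eval_monomial, one_pow, mul_one]
      have h1 : ∀ m : ℕ, (a ^ m).mulVec w = w := by
        intro m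
        induction m with
        | zero => rw [pow_zero, Matrix.one_mulVec]
        | succ m ih => rw [pow_succ, ← Matrix.mulVec_mulVec, haw, ih]
      rw [← Matrix.mulVec_mulVec, h1, Matrix.algebraMap_eq_diagonal]
      funext i
      simp [Matrix.mulVec_diagonal]
  have h1 := hact (X ^ k * g)
  rw [hfa, Matrix.zero_mulVec] at h1
  have h2 : (X ^ k * g).eval 1 = 0 := by
    rcases smul_eq_zero.mp h1.symm with h | h
    · exact h
    · exact absurd h hw
  have h3 : g.eval 1 = 0 := by
    rw [eval_mul, eval_pow, eval_X, one_pow, one_mul] at h2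
    exact h2
  have h4 : (u * X ^ (k + 1)).eval 1 = 1 := by
    have h5 := congrArg (eval 1) huv
    rw [eval_add, eval_mul (p := v), h3, mul_zero, add_zero, eval_one] at h5
    exact h5
  have h5 := hact (u * X ^ (k + 1))
  rw [h4, one_smul, ← he, he0, Matrix.zero_mulVec] at h5
  exact hw h5.symm

/-- the trace form on the algebra of an irreducible representation is nondegenerate -/
theorem bns_rad {G K : Type} [Group G] [Field K] [CharZero K] {n : ℕ}
    {r : G →* Matrix (Fin n) (Fin n) K} (hr : IsIrr r)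
    (R : Subalgebra K (Matrix (Fin n) (Fin n) K)) (hR : ∀ g, r g ∈ R)
    (x : Matrix (Fin n) (Fin n) K) (hx : x ∈ R)
    (htr : ∀ y ∈ R, (x * y).trace = 0) : x = 0 := by
  classical
  by_contra hx0
  have hv : ∃ v : Fin n → K, x.mulVec v ≠ 0 := by
    by_contra h
    push Not at h
    apply hx0
    apply Matrix.ext_of_mulVec_single
    intro i
    rw [h, Matrix.zero_mulVec]
  obtain ⟨v, hv⟩ := hv
  have hspan := irr_span hr (x.mulVec v) hv
  have hy : ∀ z ∈ Submodule.span K (Set.range fun g => (r g).mulVec (x.mulVec v)),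
      ∃ y ∈ R, y.mulVec (x.mulVec v) = z := by
    intro z h1
    induction h1 using Submodule.span_induction with
    | mem z hz =>
      obtain ⟨g, rfl⟩ := hz
      exact ⟨r g, hR g, rfl⟩
    | zero => exact ⟨0, R.zero_mem, Matrix.zero_mulVec _⟩
    | add z z' _ _ hz hz' =>
      obtain ⟨y, hy, hyz⟩ := hz
      obtain ⟨y', hy', hyz'⟩ := hz'
      exact ⟨y + y', R.add_mem hy hy', by rw [Matrix.add_mulVec, hyz, hyz']⟩
    | smul c z _ hz =>
      obtain ⟨y, hy, hyz⟩ := hz
      exact ⟨c • y, R.smul_mem hy c, by rw [Matrix.smul_mulVec, hyz]⟩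
  obtain ⟨y, hyR, hyv⟩ := hy v (by rw [hspan]; exact Submodule.mem_top)
  have haR : x * y ∈ R := R.mul_mem hx hyR
  refine bns_idem (x * y) (x.mulVec v) hv ?_ ?_
  · rw [← Matrix.mulVec_mulVec, hyv]
  · intro q
    rw [mul_assoc]
    apply htr
    apply R.mul_mem hyR
    have h1 := coe_aeval_mk_apply (x := x * y) (p := q) haR
    rw [← h1]
    exact Subtype.property _

/-- factorization of a linear map -/
theorem bns_fac {K L W V : Type} [Field K] [AddCommGroup L] [Module K L] [AddCommGroup W]
    [Module K W] [AddCommGroup V] [Module K V] (ev : L →ₗ[K] W) (φ : L →ₗ[K] V)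
    (hker : ∀ a, ev a = 0 → φ a = 0) (hev : Function.Surjective ev)
    (hφ : Function.Surjective φ) :
    ∃ ψ : W →ₗ[K] V, Function.Surjective ψ ∧ ∀ a, ψ (ev a) = φ a := by
  obtain ⟨t, ht⟩ := LinearMap.exists_rightInverse_of_surjective ev
    (LinearMap.range_eq_top.mpr hev)
  have ht' : ∀ w, ev (t w) = w := fun w => by
    have := congrArg (fun f => f w) ht
    exact this
  have hψ : ∀ a, (φ.comp t) (ev a) = φ a := by
    intro a
    have h1 : ev (t (ev a) - a) = 0 := by rw [map_sub, ht', sub_self]
    have h2 := hker _ h1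
    rw [map_sub] at h2
    exact sub_eq_zero.mp h2
  refine ⟨φ.comp t, ?_, hψ⟩
  intro x
  obtain ⟨a, rfl⟩ := hφ x
  exact ⟨ev a, hψ a⟩

/-- if `φ` is onto and vanishes on the kernel of `ev`, and the dimensions of the targets are equal,
then `φ` is `ψ ∘ ev` with `ψ` bijective, and `ev` is onto -/
theorem bns_fac2 {K L W V : Type} [Field K] [AddCommGroup L] [Module K L] [AddCommGroup W]
    [Module K W] [AddCommGroup V] [Module K V] [FiniteDimensional K W] [FiniteDimensional K V]
    (hdim : Module.finrank K W = Module.finrank K V)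
    (ev : L →ₗ[K] W) (φ : L →ₗ[K] V)
    (hker : ∀ a, ev a = 0 → φ a = 0) (hφ : Function.Surjective φ) :
    Function.Surjective ev ∧ ∃ ψ : W ≃ₗ[K] V, ∀ a, ψ (ev a) = φ a := by
  have hev : Function.Surjective ev := by
    obtain ⟨ψ, hψ, -⟩ := bns_fac ev.rangeRestrict φ (fun a ha => hker a (by
      have := congrArg Subtype.val ha
      exact this)) ev.surjective_rangeRestrict hφ
    have h1 : Module.finrank K V ≤ Module.finrank K (LinearMap.range ev) :=
      LinearMap.finrank_le_finrank_of_surjective hψ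
    have h2 : Module.finrank K (LinearMap.range ev) ≤ Module.finrank K W :=
      Submodule.finrank_le _
    exact LinearMap.range_eq_top.mp (Submodule.eq_top_of_finrank_eq (by omega))
  refine ⟨hev, ?_⟩
  obtain ⟨ψ, hψ, hψa⟩ := bns_fac ev φ hker hev hφ
  have hinj : Function.Injective ψ :=
    (LinearMap.injective_iff_surjective_of_finrank_eq_finrank hdim).mpr hψ
  exact ⟨LinearEquiv.ofBijective ψ ⟨hinj, hψ⟩, hψa⟩

theorem st_BNS : ST_BNS := by
  intro G K _ _ _ n r s hr htr
  classical
  rcases Nat.eq_zero_or_pos n with hn | hn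
  · subst hn
    exact ⟨1, fun g => Subsingleton.elim _ _⟩
  set ρ : MonoidAlgebra K G →ₐ[K] Matrix (Fin n) (Fin n) K := MonoidAlgebra.lift K _ G r with hρ
  set σ : MonoidAlgebra K G →ₐ[K] Matrix (Fin n) (Fin n) K := MonoidAlgebra.lift K _ G s with hσ
  have hρg : ∀ g, ρ (MonoidAlgebra.of K G g) = r g := fun g => by
    rw [hρ, MonoidAlgebra.lift_of]
  have hσg : ∀ g, σ (MonoidAlgebra.of K G g) = s g := fun g => by
    rw [hσ, MonoidAlgebra.lift_of]
  have htra : ∀ a : MonoidAlgebra K G, (ρ a).trace = (σ a).trace := by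
    intro a
    induction a using MonoidAlgebra.induction_on with
    | of g => rw [hρg, hσg]; exact htr g
    | add a b ha hb => rw [map_add, map_add, Matrix.trace_add, Matrix.trace_add, ha, hb]
    | smul c a ha => rw [map_smul, map_smul, Matrix.trace_smul, Matrix.trace_smul, ha]
  have hker : ∀ a, σ a = 0 → ρ a = 0 := by
    intro a ha
    refine bns_rad hr ρ.range (fun g => ⟨MonoidAlgebra.of K G g, hρg g⟩) (ρ a) ⟨a, rfl⟩ ?_
    rintro _ ⟨b, rfl⟩
    have h1 := htra (a * b)
    rw [map_mul, map_mul, ha, zero_mul, Matrix.trace_zero] at h1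
    exact h1
  -- the filtration by left ideals
  let L : ℕ → Submodule K (MonoidAlgebra K G) := fun j =>
    { carrier := {a | ∀ i : Fin n, (i : ℕ) < j → (σ a).mulVec (Pi.single i 1) = 0}
      add_mem' := by
        intro a b ha hb i hi
        rw [map_add, Matrix.add_mulVec, ha i hi, hb i hi, add_zero]
      zero_mem' := by
        intro i _
        rw [map_zero, Matrix.zero_mulVec]
      smul_mem' := by
        intro c a ha i hi
        rw [map_smul, Matrix.smul_mulVec, ha i hi, smul_zero] }
  have hLmem : ∀ j a, a ∈ L j ↔ ∀ i : Fin n, (i : ℕ) < j → (σ a).mulVec (Pi.single i 1) = 0 :=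
    fun _ _ => Iff.rfl
  have hLmul : ∀ j g a, a ∈ L j → MonoidAlgebra.of K G g * a ∈ L j := by
    intro j g a ha i hi
    rw [map_mul, ← Matrix.mulVec_mulVec, ha i hi, Matrix.mulVec_zero]
  -- a nonzero vector
  let v : Fin n → K := Pi.single ⟨0, hn⟩ 1
  have hv : v ≠ 0 := by
    intro h
    have := congrFun h ⟨0, hn⟩
    simp [v] at this
  have hex : ∃ j, ∀ a ∈ L j, (ρ a).mulVec v = 0 := by
    refine ⟨n, fun a ha => ?_⟩
    have h1 : σ a = 0 := by
      apply Matrix.ext_of_mulVec_single
      intro i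
      rw [ha i i.2, Matrix.zero_mulVec]
    rw [hker a h1, Matrix.zero_mulVec]
  set j := Nat.find hex with hj
  have hj0 : j ≠ 0 := by
    intro h0
    have h1 := Nat.find_spec hex
    rw [← hj, h0] at h1
    have h2 := h1 1 (by intro i hi; exact absurd hi (Nat.not_lt_zero _))
    rw [map_one, Matrix.one_mulVec] at h2
    exact hv h2
  obtain ⟨i, hi⟩ := Nat.exists_eq_succ_of_ne_zero hj0
  have hjspec := Nat.find_spec hex
  rw [← hj, hi] at hjspec
  have hjmin : ¬ ∀ a ∈ L i, (ρ a).mulVec v = 0 := Nat.find_min hex (by rw [← hj, hi]; exact Nat.lt_succ_self i)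
  have hin : i < n := by
    by_contra h
    push Not at h
    apply hjmin
    intro a ha
    have h1 : σ a = 0 := by
      apply Matrix.ext_of_mulVec_single
      intro i'
      rw [ha i' (lt_of_lt_of_le i'.2 h), Matrix.zero_mulVec]
    rw [hker a h1, Matrix.zero_mulVec]
  push Not at hjmin
  obtain ⟨a₀, ha₀, ha₀v⟩ := hjmin
  -- the two maps
  let ev : L i →ₗ[K] (Fin n → K) :=
    { toFun := fun a => (σ (a : MonoidAlgebra K G)).mulVec (Pi.single ⟨i, hin⟩ 1)
      map_add' := by
        intro a b
        rw [Submodule.coe_add, map_add, Matrix.add_mulVec]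
      map_smul' := by
        intro c a
        rw [Submodule.coe_smul, map_smul, Matrix.smul_mulVec, RingHom.id_apply] }
  let φ : L i →ₗ[K] (Fin n → K) :=
    { toFun := fun a => (ρ (a : MonoidAlgebra K G)).mulVec v
      map_add' := by
        intro a b
        rw [Submodule.coe_add, map_add, Matrix.add_mulVec]
      map_smul' := by
        intro c a
        rw [Submodule.coe_smul, map_smul, Matrix.smul_mulVec, RingHom.id_apply] }
  have hkr : ∀ a, ev a = 0 → φ a = 0 := by
    intro a ha
    apply hjspec (a : MonoidAlgebra K G)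
    intro i' hi'
    rcases Nat.lt_succ_iff_lt_or_eq.mp hi' with h | h
    · exact a.2 i' h
    · have : i' = ⟨i, hin⟩ := Fin.ext h
      rw [this]
      exact ha
  have hφ : Function.Surjective φ := by
    rw [← LinearMap.range_eq_top]
    rcases irr_stable hr (LinearMap.range φ) (by
      rintro g _ ⟨a, rfl⟩
      refine ⟨⟨MonoidAlgebra.of K G g * (a : MonoidAlgebra K G), hLmul i g a a.2⟩, ?_⟩
      change (ρ (MonoidAlgebra.of K G g * (a : MonoidAlgebra K G))).mulVec v =
        (r g).mulVec ((ρ (a : MonoidAlgebra K G)).mulVec v)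
      rw [map_mul, hρg, ← Matrix.mulVec_mulVec]) with h | h
    · exfalso
      apply ha₀v
      have h1 : φ ⟨a₀, ha₀⟩ ∈ LinearMap.range φ := ⟨_, rfl⟩
      rw [h, Submodule.mem_bot] at h1
      exact h1
    · exact h
  obtain ⟨hev, ψ, hψ⟩ := bns_fac2 rfl ev φ hkr hφ
  have hψg : ∀ g x, ψ ((s g).mulVec x) = (r g).mulVec (ψ x) := by
    intro g x
    obtain ⟨a, rfl⟩ := hev x
    have h1 : (s g).mulVec (ev a) =
        ev ⟨MonoidAlgebra.of K G g * (a : MonoidAlgebra K G), hLmul i g a a.2⟩ := by
      change (s g).mulVec ((σ (a : MonoidAlgebra K G)).mulVec _) =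
        (σ (MonoidAlgebra.of K G g * (a : MonoidAlgebra K G))).mulVec _
      rw [map_mul, hσg, ← Matrix.mulVec_mulVec]
    rw [h1, hψ, hψ]
    change (ρ (MonoidAlgebra.of K G g * (a : MonoidAlgebra K G))).mulVec v =
        (r g).mulVec ((ρ (a : MonoidAlgebra K G)).mulVec v)
    rw [map_mul, hρg, ← Matrix.mulVec_mulVec]
  refine ⟨⟨LinearMap.toMatrix' ψ.symm.toLinearMap, LinearMap.toMatrix' ψ.toLinearMap, ?_, ?_⟩, ?_⟩
  · rw [← LinearMap.toMatrix'_comp, ψ.symm_comp, LinearMap.toMatrix'_id]
  · rw [← LinearMap.toMatrix'_comp, ψ.comp_symm, LinearMap.toMatrix'_id]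
  · intro g
    apply Matrix.ext_of_mulVec_single
    intro i'
    rw [← Matrix.mulVec_mulVec, ← Matrix.mulVec_mulVec]
    change (LinearMap.toMatrix' ψ.symm.toLinearMap).mulVec _ =
      (s g).mulVec ((LinearMap.toMatrix' ψ.symm.toLinearMap).mulVec _)
    rw [LinearMap.toMatrix'_mulVec, LinearMap.toMatrix'_mulVec]
    change ψ.symm ((r g).mulVec _) = (s g).mulVec (ψ.symm _)
    rw [LinearEquiv.symm_apply_eq, hψg, LinearEquiv.apply_symm_apply]

end MU
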